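import Pool.Agent.H59.LIN.Targets

/-!
# Row CMB: the circles of the chord diagram
-/

set_option autoImplicit false

open Finset Polynomial

namespace Pool.Agent.H7.LIN.CMB

open Pool.Agent.H59.LIN

section abs

variable {σ : Type} (f : σ → σ) (P : σ → Prop)

/-- the first point of `P` on the way from the point `s` -/
inductive NE : σ → σ → Prop
  | ev (s : σ) : P s → NE s s
  | st (s e : σ) : ¬ P s → NE (f s) e → NE s e

variable {f P}

theorem NE.prop {s e : σ} (h : NE f P s e) : P e := by
  induction h with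
  | ev s hs => exact hs
  | st s e _ _ ih => exact ih

theorem NE.inv {s e : σ} (h : NE f P s e) (hs : ¬ P s) : NE f P (f s) e := by
  cases h with
  | ev _ h' => exact absurd h' hs
  | st _ _ _ h' => exact h'

theorem NE.uniq {s e e' : σ} (h : NE f P s e) (h' : NE f P s e') : e = e' := by
  induction h with
  | ev s hs =>
    cases h' with
    | ev _ _ => rfl
    | st _ _ h2 _ => exact absurd hs h2
  | st s e hs _ ih => exact ih (h'.inv hs)

variable (f P)

open Classical in
/-- the points of `P` on the way -/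
noncomputable def evs (m : ℕ) (s : σ) : List σ :=
  ((List.range m).map fun j => f^[j] s).filter fun s => decide (P s)

variable {f P}

theorem evs_zero (s : σ) : evs f P 0 s = [] := rfl

open Classical in
theorem evs_succ (m : ℕ) (s : σ) :
    evs f P (m + 1) s = (if P s then [s] else []) ++ evs f P m (f s) := by
  unfold evs
  rw [List.range_succ_eq_map, List.map_cons, List.filter_cons, List.map_map]
  have h1 : ((fun j => f^[j] s) ∘ Nat.succ) = fun j => f^[j] (f s) := by
    funext j
    rfl
  rw [h1]
  by_cases hs : P s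
  · rw [if_pos hs]
    have : decide (P (f^[0] s)) = true := decide_eq_true hs
    rw [if_pos this]
    rfl
  · rw [if_neg hs]
    have : ¬ decide (P (f^[0] s)) = true := fun h => hs (of_decide_eq_true h)
    rw [if_neg this]
    rfl

theorem mem_evs {m : ℕ} {s e : σ} : e ∈ evs f P m s ↔ (∃ j, j < m ∧ f^[j] s = e) ∧ P e := by
  unfold evs
  rw [List.mem_filter, List.mem_map]
  simp only [List.mem_range, decide_eq_true_eq]

theorem evs_add (a b : ℕ) (s : σ) :
    evs f P (a + b) s = evs f P a s ++ evs f P b (f^[a] s) := by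
  induction a generalizing s with
  | zero => rw [zero_add, evs_zero]; rfl
  | succ a ih =>
    rw [show a + 1 + b = (a + b) + 1 by ring, evs_succ, ih, evs_succ, List.append_assoc]
    rfl

theorem evs_cons {m : ℕ} {s a : σ} {l : List σ} (h : evs f P m s = a :: l) :
    NE f P s a ∧ ∃ m', l = evs f P m' (f a) ∧ f^[m'] (f a) = f^[m] s := by
  induction m generalizing s with
  | zero => rw [evs_zero] at h; exact absurd h (by simp)
  | succ m ih =>
    rw [evs_succ] at h
    by_cases hs : P s
    · rw [if_pos hs, List.singleton_append, List.cons.injEq] at h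
      obtain ⟨rfl, h2⟩ := h
      exact ⟨NE.ev _ hs, m, h2.symm, rfl⟩
    · rw [if_neg hs, List.nil_append] at h
      obtain ⟨h1, m', h2, h3⟩ := ih h
      exact ⟨NE.st _ _ hs h1, m', h2, h3⟩

theorem evs_nil {m : ℕ} {s e : σ} (h : evs f P m s = []) (h' : NE f P (f^[m] s) e) :
    NE f P s e := by
  induction m generalizing s with
  | zero => exact h'
  | succ m ih =>
    rw [evs_succ] at h
    by_cases hs : P s
    · rw [if_pos hs] at h
      exact absurd h (by simp)
    · rw [if_neg hs, List.nil_append] at h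
      exact NE.st _ _ hs (ih h h')

theorem nexts {l : List σ} {m : ℕ} {s : σ} (h : evs f P m s = l) (x : ℕ) (hx : x + 1 < l.length) :
    NE f P (f (l.get ⟨x, Nat.lt_of_succ_lt hx⟩)) (l.get ⟨x + 1, hx⟩) := by
  induction l generalizing m s x with
  | nil => exact absurd hx (by simp)
  | cons a l ih =>
    obtain ⟨-, m', h1, -⟩ := evs_cons h
    cases x with
    | zero =>
      cases l with
      | nil => exact absurd hx (by simp)
      | cons b l => exact (evs_cons h1.symm).1
    | succ x => exact ih h1.symm x (by simpa using hx)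

theorem lasts {l : List σ} {m : ℕ} {s e : σ} (h : evs f P m s = l) (hl : l ≠ [])
    (he : NE f P (f^[m] s) e) : NE f P (f (l.getLast hl)) e := by
  induction l generalizing m s with
  | nil => exact absurd rfl hl
  | cons a l ih =>
    obtain ⟨-, m', h1, h2⟩ := evs_cons h
    cases l with
    | nil =>
      rw [List.getLast_singleton]
      exact evs_nil h1.symm (by rw [h2]; exact he)
    | cons b l =>
      rw [List.getLast_cons (by simp)]
      exact ih h1.symm (by simp) (by rw [h2]; exact he)

/-- the first return -/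
theorem ret {N : ℕ} (i : Fin N → σ) (hinj : Function.Injective i)
    (hP : ∀ s, P s → ∃ x, i x = s) (hP' : ∀ x, P (i x)) (hne : ∀ s, ∃ e, NE f P s e)
    (hrot : ∀ x, NE f P (f (i x)) (i (finRotate N x))) (J : σ → σ) (jm : Fin N → Fin N)
    (hJ : ∀ s, ¬ P s → J s = s) (hJi : ∀ x, J (i x) = i (jm x)) :
    ncl (fun s => f (J s)) = ncl (fun x => finRotate N (jm x)) := by
  have h0 : ∀ s, ∃ x, NE f P s (i x) := by
    intro s
    obtain ⟨e, he⟩ := hne s
    obtain ⟨x, hx⟩ := hP e he.prop
    exact ⟨x, hx ▸ he⟩
  choose ρ hρ using h0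
  have ha : ∀ x, ρ (i x) = x := fun x => hinj ((hρ (i x)).uniq (NE.ev _ (hP' x)))
  have hb : ∀ x, ρ (f (J (i x))) = finRotate N (jm x) := by
    intro x
    apply hinj
    have h1 := hρ (f (J (i x)))
    rw [hJi] at h1 ⊢
    exact h1.uniq (hrot _)
  have hc : ∀ s, ¬ P s → ρ (f (J s)) = ρ s := by
    intro s hs
    apply hinj
    rw [hJ s hs]
    exact (hρ (f s)).uniq ((hρ s).inv hs)
  have hd : ∀ s e, NE f P s e → Quot.mk (fun x y => y = f (J x)) s = Quot.mk _ e := by
    intro s e h
    induction h with
    | ev s hs => rfl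
    | st s e hs _ ih =>
      rw [← ih]
      exact Quot.sound (by rw [hJ s hs])
  unfold ncl
  refine Nat.card_congr
    { toFun := Quot.lift (fun s => Quot.mk _ (ρ s)) ?_
      invFun := Quot.lift (fun x => Quot.mk _ (i x)) ?_
      left_inv := ?_
      right_inv := ?_ }
  · rintro s s' rfl
    by_cases hs : P s
    · obtain ⟨x, rfl⟩ := hP s hs
      rw [ha, hb]
      exact Quot.sound rfl
    · rw [hc s hs]
  · rintro x x' rfl
    have h1 : Quot.mk (fun x y => y = f (J x)) (i x) = Quot.mk _ (f (J (i x))) :=
      Quot.sound rfl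
    rw [h1, hJi]
    exact hd _ _ (hrot _)
  · rintro ⟨s⟩
    exact (hd _ _ (hρ s)).symm
  · rintro ⟨x⟩
    change Quot.mk _ (ρ (i x)) = _
    rw [ha]

theorem ne_exists {c : ℕ} {s : σ} (h : P (f^[c] s)) : ∃ e, NE f P s e := by
  induction c generalizing s with
  | zero => exact ⟨s, NE.ev _ h⟩
  | succ c ih =>
    by_cases hs : P s
    · exact ⟨s, NE.ev _ hs⟩
    · obtain ⟨e, he⟩ := ih (s := f s) h
      exact ⟨e, NE.st _ _ hs he⟩

end abs

theorem rot_lt {N k : ℕ} (h : k + 1 < N) :
    finRotate N ⟨k, Nat.lt_of_succ_lt h⟩ = ⟨k + 1, h⟩ := by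
  cases N with
  | zero => exact absurd h (by simp)
  | succ N => exact finRotate_of_lt (by omega)

theorem rot_last {N k : ℕ} (h : k + 1 = N) :
    finRotate N ⟨k, by omega⟩ = ⟨0, by omega⟩ := by
  subst h
  exact finRotate_last'

section conc

variable {n : ℕ}

theorem run_append {α : Type} (u v : List (Fin n × α)) (p : Fin (n + 1)) :
    run (u ++ v) p = run v (run u p) := by
  induction u generalizing p with
  | nil => rfl
  | cons x u ih => exact ih _

theorem run_surj {α : Type} (u : List (Fin n × α)) : Function.Surjective (run u) := by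
  induction u with
  | nil => exact fun p => ⟨p, rfl⟩
  | cons x u ih =>
    intro p
    obtain ⟨q, hq⟩ := ih p
    refine ⟨(tr x.1).symm q, ?_⟩
    change run u (tr x.1 ((tr x.1).symm q)) = p
    rw [Equiv.apply_symm_apply, hq]

theorem stp_eq {β : Type} (w : List (Fin n × β)) (s : Fin w.length × Fin (n + 1)) :
    stp w ∅ s = (finRotate _ s.1, tr (w.get s.1).1 s.2) := by
  simp [stp]

theorem stp_inj {β : Type} (w : List (Fin n × β)) : Function.Injective (stp w ∅) := by
  intro s s' h
  rw [stp_eq, stp_eq, Prod.mk.injEq] at h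
  obtain ⟨h1, h2⟩ := h
  have h3 : s.1 = s'.1 := (finRotate _).injective h1
  rw [h3] at h2
  exact Prod.ext h3 ((tr _).injective h2)

theorem iter_k {β : Type} (w : List (Fin n × β)) (k : ℕ) (hk : k < w.length) (p : Fin (n + 1)) :
    (stp w ∅)^[k] (⟨0, Nat.lt_of_le_of_lt (Nat.zero_le k) hk⟩, p) =
      (⟨k, hk⟩, run (w.take k) p) := by
  induction k with
  | zero => rfl
  | succ k ih =>
    rw [Function.iterate_succ_apply', ih (Nat.lt_of_succ_lt hk), stp_eq, rot_lt hk,
      List.take_succ_eq_append_getElem (Nat.lt_of_succ_lt hk), run_append]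
    rfl

theorem iter_L {β : Type} (w : List (Fin n × β)) (hL : 0 < w.length) (p : Fin (n + 1)) :
    (stp w ∅)^[w.length] (⟨0, hL⟩, p) = (⟨0, hL⟩, run w p) := by
  obtain ⟨k, hk⟩ : ∃ k, k + 1 = w.length := ⟨w.length - 1, by omega⟩
  have h1 : (stp w ∅)^[k + 1] (⟨0, hL⟩, p) = (⟨0, hL⟩, run w p) := by
    rw [Function.iterate_succ_apply', iter_k w k (by omega), stp_eq, rot_last hk]
    have h2 : run w p = run (w.take k ++ [w[k]]) p := by
      rw [← List.take_succ_eq_append_getElem (by omega), hk, List.take_length]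
    rw [h2, run_append]
    rfl
  rw [hk] at h1
  exact h1

theorem iter_Lj {β : Type} (w : List (Fin n × β)) (hL : 0 < w.length) (j : ℕ) :
    (stp w ∅)^[w.length * j] (⟨0, hL⟩, 0) = (⟨0, hL⟩, (run w)^[j] 0) := by
  induction j with
  | zero => rfl
  | succ j ih =>
    rw [Nat.mul_succ, add_comm (w.length * j) w.length, Function.iterate_add_apply, ih, iter_L,
      Function.iterate_succ_apply']

/-- the events -/
def Ev (w : SWd n) (s : Fin w.length × Fin (n + 1)) : Prop :=
  (w.get s.1).2 = none ∧ (s.2 = (w.get s.1).1.castSucc ∨ s.2 = (w.get s.1).1.succ)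

theorem meets_eq (w : SWd n) (m : ℕ) : ∀ (k : ℕ) (p : Fin (n + 1)) (h : k + (m + 1) = w.length),
    meets k (w.drop k) p =
      (evs (stp w ∅) (Ev w) (m + 1) (⟨k, by omega⟩, p)).map fun s => (s.1 : ℕ) := by
  classical
  induction m with
  | zero =>
    intro k p h
    rw [List.drop_eq_getElem_cons (by omega), List.drop_of_length_le (by omega), evs_succ, evs_zero,
      List.append_nil]
    by_cases hE : Ev w (⟨k, by omega⟩, p)
    · rw [if_pos hE]
      have hE' : w[k].2 = none ∧ (p = w[k].1.castSucc ∨ p = w[k].1.succ) := hE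
      unfold meets
      rw [if_pos hE']
      rfl
    · rw [if_neg hE]
      have hE' : ¬ (w[k].2 = none ∧ (p = w[k].1.castSucc ∨ p = w[k].1.succ)) := hE
      unfold meets
      rw [if_neg hE']
      rfl
  | succ m ih =>
    intro k p h
    rw [List.drop_eq_getElem_cons (by omega), evs_succ, List.map_append, stp_eq,
      rot_lt (k := k) (by omega)]
    have h1 := ih (k + 1) (tr (w.get ⟨k, by omega⟩).1 p) (by omega)
    rw [← h1]
    by_cases hE : Ev w (⟨k, by omega⟩, p)
    · rw [if_pos hE]
      have hE' : w[k].2 = none ∧ (p = w[k].1.castSucc ∨ p = w[k].1.succ) := hE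
      rw [meets]
      rw [if_pos hE']
      rfl
    · rw [if_neg hE]
      have hE' : ¬ (w[k].2 = none ∧ (p = w[k].1.castSucc ∨ p = w[k].1.succ)) := hE
      rw [meets]
      rw [if_neg hE']
      rfl

theorem gauss_eq (w : SWd n) (hL : 0 < w.length) (j : ℕ) :
    ((List.range j).flatMap fun j => meets 0 w ((run w)^[j] 0)) =
      (evs (stp w ∅) (Ev w) (w.length * j) (⟨0, hL⟩, 0)).map fun s => (s.1 : ℕ) := by
  induction j with
  | zero => rfl
  | succ j ih =>
    rw [List.range_succ, List.flatMap_append, ih, Nat.mul_succ, evs_add, List.map_append, iter_Lj]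
    congr 1
    rw [List.flatMap_singleton]
    obtain ⟨k, hk⟩ : ∃ k, k + 1 = w.length := ⟨w.length - 1, by omega⟩
    have h1 := meets_eq w k 0 ((run w)^[j] 0) (by omega)
    rw [List.drop_zero] at h1
    rw [h1]
    congr 2

theorem reach (w : SWd n) (hL : 0 < w.length) (hw : Knot w) (s : Fin w.length × Fin (n + 1)) :
    ∃ m, (stp w ∅)^[m] (⟨0, hL⟩, 0) = s := by
  obtain ⟨⟨k, hk⟩, p⟩ := s
  obtain ⟨p', hp'⟩ := run_surj (w.take k) p
  obtain ⟨j, hj⟩ := hw p'
  refine ⟨k + w.length * j, ?_⟩
  rw [Function.iterate_add_apply, iter_Lj, hj, iter_k, hp']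

theorem period (w : SWd n) (hL : 0 < w.length) (hw : Knot w) :
    Function.minimalPeriod (stp w ∅) ((⟨0, hL⟩, 0) : Fin w.length × Fin (n + 1)) =
      w.length * (n + 1) := by
  set s0 : Fin w.length × Fin (n + 1) := (⟨0, hL⟩, 0) with hs0
  have h1 := Function.minimalPeriod_pos_of_mem_periodicPts ((stp_inj w).mem_periodicPts s0)
  have h2 : Function.Bijective (fun r : Fin (Function.minimalPeriod (stp w ∅) s0) =>
      (stp w ∅)^[r] s0) := by
    constructor
    · intro r r' h
      exact Fin.ext (Function.iterate_injOn_Iio_minimalPeriod r.2 r'.2 h)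
    · intro s
      obtain ⟨m, hm⟩ := reach w hL hw s
      refine ⟨⟨m % Function.minimalPeriod (stp w ∅) s0, Nat.mod_lt _ h1⟩, ?_⟩
      simp only
      rw [Function.iterate_mod_minimalPeriod_eq, hm]
  have h3 := Fintype.card_of_bijective h2
  rw [Fintype.card_fin, Fintype.card_prod, Fintype.card_fin, Fintype.card_fin] at h3
  exact h3

end conc

theorem pf_CMB : Pool.Agent.H59.LIN.T_CMB := by
  classical
  intro n w d D t hd hw ht hg B
  have hL : 0 < w.length := by
    by_contra hL
    have hw0 : w = [] := List.eq_nil_of_length_eq_zero (by omega)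
    have h1 : gauss w = [] := by
      rw [hw0]
      unfold gauss
      simp [meets]
    rw [h1] at hg
    have h2 := congrArg List.length hg
    rw [List.length_ofFn, List.length_nil] at h2
    omega
  set s0 : Fin w.length × Fin (n + 1) := (⟨0, hL⟩, 0) with hs0
  have hper := period w hL hw
  rw [← hs0] at hper
  set M := w.length * (n + 1) with hM
  have hfix : (stp w ∅)^[M] s0 = s0 := by
    rw [← hper]
    exact Function.iterate_minimalPeriod
  have hlt : ∀ s, ∃ j, j < M ∧ (stp w ∅)^[j] s0 = s := by
    intro s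
    obtain ⟨m, hm⟩ := reach w hL hw s
    refine ⟨m % M, Nat.mod_lt _ (by rw [hM]; positivity), ?_⟩
    rw [← hper, Function.iterate_mod_minimalPeriod_eq, hm]
  set l := evs (stp w ∅) (Ev w) M s0 with hl
  have hlg : l.map (fun s => (s.1 : ℕ)) = List.ofFn fun x => t (D x).1 := by
    rw [← hg]
    exact (gauss_eq w hL (n + 1)).symm
  have hlen : l.length = 2 * d := by
    have := congrArg List.length hlg
    rwa [List.length_map, List.length_ofFn] at this
  have hnd : l.Nodup := by
    rw [hl]
    unfold evs
    apply List.Nodup.filter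
    apply List.Nodup.map_on _ List.nodup_range
    intro x hx y hy hxy
    rw [List.mem_range, ← hper] at hx hy
    exact Function.iterate_injOn_Iio_minimalPeriod hx hy hxy
  let i : Fin (2 * d) → Fin w.length × Fin (n + 1) := fun x => l.get ⟨x, by rw [hlen]; exact x.2⟩
  have hinj : Function.Injective i := by
    intro x y hxy
    have := (List.nodup_iff_injective_get.1 hnd) hxy
    rw [Fin.mk.injEq] at this
    exact Fin.ext this
  have hP' : ∀ x, Ev w (i x) := fun x => (mem_evs.1 (List.get_mem l _)).2
  have hP : ∀ s, Ev w s → ∃ x, i x = s := by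
    intro s hs
    have h1 : s ∈ l := mem_evs.2 ⟨hlt s, hs⟩
    obtain ⟨x, hx⟩ := List.mem_iff_get.1 h1
    exact ⟨⟨x, by rw [← hlen]; exact x.2⟩, hx⟩
  have hlab : ∀ x, ((i x).1 : ℕ) = t (D x).1 := by
    intro x
    have h1 : (l.map (fun s => (s.1 : ℕ)))[(x : ℕ)]'(by rw [List.length_map, hlen]; exact x.2) =
        (List.ofFn fun x => t (D x).1)[(x : ℕ)]'(by rw [List.length_ofFn]; exact x.2) := by
      simp only [hlg]
    rw [List.getElem_map, List.getElem_ofFn] at h1
    exact h1
  have hne : ∀ s, ∃ e, NE (stp w ∅) (Ev w) s e := by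
    intro s
    obtain ⟨a, ha, rfl⟩ := hlt s
    obtain ⟨b, -, hb⟩ := hlt (i ⟨0, by omega⟩)
    apply ne_exists (c := b + (M - a))
    rw [← Function.iterate_add_apply, show b + (M - a) + a = b + M by omega,
      Function.iterate_add_apply, hfix, hb]
    exact hP' _
  have hi0 : NE (stp w ∅) (Ev w) s0 (i ⟨0, by omega⟩) := by
    have hl' : l ≠ [] := by
      intro h
      rw [h] at hlen
      simp at hlen
      omega
    obtain ⟨a, l', hal⟩ := List.exists_cons_of_ne_nil hl'
    have h1 := (evs_cons (hl.symm.trans hal)).1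
    have h2 : i ⟨0, by omega⟩ = a := by
      change l[0] = a
      rw [List.getElem_of_eq hal]
      rfl
    rw [h2]
    exact h1
  have hrot : ∀ x, NE (stp w ∅) (Ev w) (stp w ∅ (i x)) (i (finRotate (2 * d) x)) := by
    rintro ⟨x, hx⟩
    by_cases hx1 : x + 1 < 2 * d
    · rw [rot_lt hx1]
      exact nexts hl.symm x (by rw [hlen]; exact hx1)
    · have hx2 : x + 1 = 2 * d := by omega
      rw [rot_last hx2]
      have hl' : l ≠ [] := by
        intro h
        rw [h] at hlen
        simp at hlen
        omega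
      have h1 := lasts hl.symm hl' (e := i ⟨0, by omega⟩) (by rw [hfix]; exact hi0)
      rw [List.getLast_eq_getElem] at h1
      have h2 : l[l.length - 1]'(by omega) = i ⟨x, hx⟩ := by
        change _ = l[x]
        congr 1
        omega
      rw [h2] at h1
      exact h1
  have hJ : ∀ s, ¬ Ev w s → (fun s : Fin w.length × Fin (n + 1) =>
      if (s.1 : ℕ) ∈ B.image t then (s.1, tr (w.get s.1).1 s.2) else s) s = s := by
    intro s hs
    simp only
    by_cases hsB : (s.1 : ℕ) ∈ B.image t
    · rw [if_pos hsB]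
      obtain ⟨b, hb, hbs⟩ := Finset.mem_image.1 hsB
      have h1 := hP' (D.symm (b, true))
      have h2 : (i (D.symm (b, true))).1 = s.1 := by
        apply Fin.ext
        rw [hlab, Equiv.apply_symm_apply, hbs]
      have h3 : (w.get s.1).2 = none := by
        rw [← h2]
        exact h1.1
      have h4 : s.2 ≠ (w.get s.1).1.castSucc ∧ s.2 ≠ (w.get s.1).1.succ := by
        constructor
        · intro h; exact hs ⟨h3, Or.inl h⟩
        · intro h; exact hs ⟨h3, Or.inr h⟩
      apply Prod.ext
      · rfl
      · exact Equiv.swap_apply_of_ne_of_ne h4.1 h4.2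
    · rw [if_neg hsB]
  have hJi : ∀ x, (fun s : Fin w.length × Fin (n + 1) =>
      if (s.1 : ℕ) ∈ B.image t then (s.1, tr (w.get s.1).1 s.2) else s) (i x) = i (jmp D B x) := by
    intro x
    simp only
    rw [hlab]
    unfold jmp
    by_cases hx : (D x).1 ∈ B
    · rw [if_pos hx, if_pos (Finset.mem_image_of_mem t hx)]
      have h1 : (i (D.symm ((D x).1, !(D x).2))).1 = (i x).1 := by
        apply Fin.ext
        rw [hlab, hlab, Equiv.apply_symm_apply]
      have h2 : i (D.symm ((D x).1, !(D x).2)) ≠ i x := by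
        intro h
        have h3 := congrArg D (hinj h)
        rw [Equiv.apply_symm_apply] at h3
        have h4 := congrArg Prod.snd h3
        simp at h4
      have h5 := hP' (D.symm ((D x).1, !(D x).2))
      have h6 := hP' x
      generalize i (D.symm ((D x).1, !(D x).2)) = e at h1 h2 h5
      generalize i x = e' at h1 h2 h6 ⊢
      obtain ⟨a, p⟩ := e
      obtain ⟨a', p'⟩ := e'
      simp only at h1
      subst h1
      apply Prod.ext
      · rfl
      · simp only
        obtain ⟨-, h5⟩ := h5
        obtain ⟨-, h6⟩ := h6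
        simp only at h5 h6
        rcases h5 with h5 | h5 <;> rcases h6 with h6 | h6
        · exact (h2 (Prod.ext rfl (h5.trans h6.symm))).elim
        · rw [h5, h6]
          exact Equiv.swap_apply_right _ _
        · rw [h5, h6]
          exact Equiv.swap_apply_left _ _
        · exact (h2 (Prod.ext rfl (h5.trans h6.symm))).elim
    · rw [if_neg hx, if_neg]
      intro h
      obtain ⟨b, hb, hbx⟩ := Finset.mem_image.1 h
      exact hx (ht hbx ▸ hb)
  have hstp : stp w (B.image t) = fun s => stp w ∅ ((fun s : Fin w.length × Fin (n + 1) =>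
      if (s.1 : ℕ) ∈ B.image t then (s.1, tr (w.get s.1).1 s.2) else s) s) := by
    funext s
    rw [stp_eq]
    unfold stp
    by_cases hs : (s.1 : ℕ) ∈ B.image t
    · simp only [if_pos hs]
      apply Prod.ext
      · rfl
      · exact (Equiv.swap_apply_self _ _ _).symm
    · simp only [if_neg hs]
  rw [hstp]
  exact ret i hinj hP hP' hne hrot _ _ hJ hJi

end Pool.Agent.H7.LIN.CMB
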