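import Pool.Agent.H59.LIN.Targets

/-!
# Row VAL: the values of the basic places
-/

set_option autoImplicit false

open Finset Polynomial

namespace Pool.Agent.H7.LIN

open Pool.Agent.H59.LIN

section mats

variable {N : ℕ}

/-- the elementary matrix -/
def Em (g : Fin N × Fin N) : Matrix (Fin N) (Fin N) ℤ := Matrix.single g.1 g.2 1

/-- the transposed elementary matrix -/
def Es (g : Fin N × Fin N) : Matrix (Fin N) (Fin N) ℤ := Matrix.single g.2 g.1 1

theorem i1 (Z : Matrix (Fin N) (Fin N) ℤ) : ∑ g, Em g * Z * Es g = Z.trace • 1 := by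
  ext i j
  rw [Matrix.sum_apply, Fintype.sum_prod_type]
  simp only [Em, Es]
  simp only [Matrix.mul_apply, Matrix.single_apply, Matrix.smul_apply, Matrix.one_apply,
    Matrix.trace, Matrix.diag_apply]
  simp [Finset.sum_ite_eq, ite_and, Finset.sum_ite_irrel]
  by_cases hij : i = j
  · subst hij; simp
  · simp [hij, Ne.symm hij]

theorem i3 (Z : Matrix (Fin N) (Fin N) ℤ) : ∑ g, (Es g * Z).trace • Em g = Z := by
  ext i j
  rw [Matrix.sum_apply, Fintype.sum_prod_type]
  simp only [Em, Es]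
  simp [Matrix.single_apply, ite_and, Matrix.trace_single_mul]

theorem i3' (Z : Matrix (Fin N) (Fin N) ℤ) : ∑ g, (Em g * Z).trace • Es g = Z := by
  ext i j
  rw [Matrix.sum_apply, Fintype.sum_prod_type, Finset.sum_comm]
  simp only [Em, Es]
  simp [Matrix.single_apply, ite_and, Matrix.trace_single_mul]

theorem i4 : ∑ g : Fin N × Fin N, Em g * Es g = (N : ℤ) • 1 := by
  have := i1 (1 : Matrix (Fin N) (Fin N) ℤ)
  simpa only [mul_one, Matrix.trace_one, Fintype.card_fin] using this

theorem i2 : ∑ g : Fin N × Fin N, (Em g).trace • Es g = 1 := by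
  have := i3' (1 : Matrix (Fin N) (Fin N) ℤ)
  simpa only [mul_one] using this

/-- one step from the left -/
theorem lstep (α β : ℤ) (Y : Matrix (Fin N) (Fin N) ℤ) :
    ∑ g, (α • Em g + (β * (Em g).trace) • (1 : Matrix (Fin N) (Fin N) ℤ)) *
      (Es g * Y - Y * Es g) = (N * α) • Y + (-α * Y.trace) • 1 := by
  have h1 : ∀ g : Fin N × Fin N,
      (α • Em g + (β * (Em g).trace) • (1 : Matrix (Fin N) (Fin N) ℤ)) * (Es g * Y - Y * Es g) =
      α • ((Em g * Es g) * Y) - α • (Em g * Y * Es g) + β • (((Em g).trace • Es g) * Y) -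
        β • (Y * ((Em g).trace • Es g)) := by
    intro g
    simp only [add_mul, mul_sub, smul_mul_assoc, mul_smul_comm, one_mul, smul_smul,
      mul_assoc]
    abel
  simp only [h1]
  rw [Finset.sum_sub_distrib, Finset.sum_add_distrib, Finset.sum_sub_distrib, ← Finset.smul_sum,
    ← Finset.smul_sum, ← Finset.smul_sum, ← Finset.smul_sum, ← Finset.sum_mul, ← Finset.sum_mul,
    ← Finset.mul_sum, i4, i2, i1, one_mul, mul_one, smul_mul_assoc, one_mul, smul_smul, smul_smul,
    neg_mul, neg_smul, mul_comm α (N : ℤ)]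
  abel

end mats

section sums

variable {L M : Type} [Fintype L] [AddCommMonoid M]

/-- extension of a finite family -/
def ex (g0 : L) (m : ℕ) (I : Fin m → L) (x : ℕ) : L := if h : x < m then I ⟨x, h⟩ else g0

/-- a family with a new first member -/
def nc (g : L) (J : ℕ → L) : ℕ → L
  | 0 => g
  | x + 1 => J x

omit [Fintype L] in
theorem ex_cons (g0 g : L) (m : ℕ) (I : Fin m → L) :
    ex g0 (m + 1) (Fin.cons g I : Fin (m + 1) → L) = nc g (ex g0 m I) := by
  funext x
  cases x with
  | zero =>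
    simp only [ex, nc]
    rw [dif_pos (Nat.succ_pos m)]
    rfl
  | succ x =>
    simp only [ex, nc]
    by_cases h : x < m
    · rw [dif_pos h, dif_pos (Nat.succ_lt_succ h)]
      rfl
    · rw [dif_neg h, dif_neg (fun h' => h (Nat.lt_of_succ_lt_succ h'))]

/-- the sum over the first `m` labels -/
def Sm (g0 : L) (m : ℕ) (G : (ℕ → L) → M) : M := ∑ I : Fin m → L, G (ex g0 m I)

theorem Sm_succ (g0 : L) (m : ℕ) (G : (ℕ → L) → M) :
    Sm g0 (m + 1) G = ∑ g, Sm g0 m (fun J => G (nc g J)) := by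
  unfold Sm
  rw [← (Fin.consEquiv (fun _ : Fin (m + 1) => L)).sum_comp, Fintype.sum_prod_type]
  refine Finset.sum_congr rfl fun g _ => Finset.sum_congr rfl fun I _ => ?_
  change G _ = G (nc g (ex g0 m I))
  rw [← ex_cons]
  rfl

theorem Sm_comm (g0 : L) (m : ℕ) {ι : Type} [Fintype ι] (G : ι → (ℕ → L) → M) :
    ∑ i, Sm g0 m (G i) = Sm g0 m (fun J => ∑ i, G i J) := by
  unfold Sm
  rw [Finset.sum_comm]

theorem Sm_one (g0 : L) (G : (ℕ → L) → M) :
    Sm g0 1 G = ∑ g, G (nc g (ex g0 0 Fin.elim0)) := by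
  rw [Sm_succ]
  refine Finset.sum_congr rfl fun g _ => ?_
  unfold Sm
  rw [Fintype.sum_unique]
  congr

end sums

section chains

variable {N : ℕ}

/-- the product of the chain -/
def CH (a k : ℕ) (J : ℕ → Fin N × Fin N) : Matrix (Fin N) (Fin N) ℤ :=
  ((chn a k).map (plM (EE J))).prod

theorem CH_zero (a : ℕ) (J : ℕ → Fin N × Fin N) : CH a 0 J = 1 := rfl

theorem CH_succ (a k : ℕ) (J : ℕ → Fin N × Fin N) : CH a (k + 1) J =
    (Es (J a) * Em (J (a + 1)) - Em (J (a + 1)) * Es (J a)) * CH (a + 1) k J := by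
  unfold CH chn
  rw [List.range_succ_eq_map, List.map_cons, List.map_cons, List.prod_cons, List.map_map,
    List.map_map, List.map_map]
  congr 1
  congr 1
  apply List.map_congr_left
  intro x _
  simp only [Function.comp]
  rw [show a + (x + 1) = a + 1 + x by ring]

theorem CH_nc (a k : ℕ) (g : Fin N × Fin N) (J : ℕ → Fin N × Fin N) :
    CH (a + 1) k (nc g J) = CH a k J := by
  induction k generalizing a with
  | zero => rfl
  | succ k ih =>
    rw [CH_succ, CH_succ, ih]
    rfl

theorem CH_shift (a k q : ℕ) (J : ℕ → Fin N × Fin N) :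
    CH (a + q) k J = CH a k (fun x => J (x + q)) := by
  induction k generalizing a with
  | zero => rfl
  | succ k ih =>
    rw [CH_succ, CH_succ, ← ih, show a + q + 1 = a + 1 + q by ring]

theorem left_sum (g0 : Fin N × Fin N) (q m : ℕ) (α β : ℤ)
    (F : (ℕ → Fin N × Fin N) → Matrix (Fin N) (Fin N) ℤ) :
    Sm g0 (q + m) (fun J => (α • Em (J 0) + (β * (Em (J 0)).trace) • 1) * CH 0 q J *
      F (fun x => J (x + q))) =
    Sm g0 m (fun J => (((N : ℤ) ^ q * α) • Em (J 0) +
      ((if q = 0 then β else -((N : ℤ) ^ (q - 1) * α)) * (Em (J 0)).trace) • 1) * F J) := by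
  induction q generalizing α β with
  | zero =>
    rw [zero_add]
    simp only [CH_zero, mul_one, pow_zero, one_mul, if_true, add_zero]
  | succ q ih =>
    rw [show q + 1 + m = (q + m) + 1 by ring, Sm_succ]
    have h1 : ∀ (g : Fin N × Fin N) (J : ℕ → Fin N × Fin N),
        (α • Em (nc g J 0) + (β * (Em (nc g J 0)).trace) • (1 : Matrix (Fin N) (Fin N) ℤ)) *
          CH 0 (q + 1) (nc g J) * F (fun x => nc g J (x + (q + 1))) =
        ((α • Em g + (β * (Em g).trace) • (1 : Matrix (Fin N) (Fin N) ℤ)) *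
          (Es g * Em (J 0) - Em (J 0) * Es g)) * CH 0 q J * F (fun x => J (x + q)) := by
      intro g J
      rw [CH_succ, CH_nc]
      simp only [← mul_assoc]
      rfl
    simp only [h1]
    rw [Sm_comm]
    simp only [← Finset.sum_mul, lstep]
    rw [ih]
    congr 1
    funext J
    have h2 : (N : ℤ) ^ q * (N * α) = (N : ℤ) ^ (q + 1) * α := by ring
    have h3 : (if q = 0 then -α else -((N : ℤ) ^ (q - 1) * (N * α))) =
        if q + 1 = 0 then β else -((N : ℤ) ^ (q + 1 - 1) * α) := by
      rw [if_neg (Nat.succ_ne_zero q), Nat.add_sub_cancel]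
      by_cases hq : q = 0
      · rw [if_pos hq, hq]; ring
      · rw [if_neg hq]
        obtain ⟨r, rfl⟩ := Nat.exists_eq_succ_of_ne_zero hq
        rw [Nat.succ_sub_one, Nat.succ_eq_add_one]
        ring
    rw [h2, h3]

theorem chain_sum (g0 : Fin N × Fin N) (k : ℕ)
    (Φ : Fin N × Fin N → Fin N × Fin N → Matrix (Fin N) (Fin N) ℤ →+ ℤ) :
    Sm g0 (k + 2) (fun J => Φ (J 0) (J (k + 1)) (CH 0 (k + 1) J)) =
      ∑ a, ∑ b, Φ a b (VV N k (Es a) (Em b)) := by
  induction k generalizing Φ with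
  | zero =>
    rw [Sm_succ]
    refine Finset.sum_congr rfl fun a _ => ?_
    rw [Sm_one]
    refine Finset.sum_congr rfl fun b _ => ?_
    rw [CH_succ, CH_zero, mul_one]
    rfl
  | succ k ih =>
    rw [Sm_succ]
    refine Finset.sum_congr rfl fun a _ => ?_
    have h1 : ∀ J : ℕ → Fin N × Fin N, Φ (nc a J 0) (nc a J (k + 1 + 1))
        (CH 0 (k + 1 + 1) (nc a J)) =
        ((fun g b => (Φ a b).comp (AddMonoidHom.mulLeft (Es a * Em g - Em g * Es a)) :
          Fin N × Fin N → Fin N × Fin N → Matrix (Fin N) (Fin N) ℤ →+ ℤ)) (J 0) (J (k + 1))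
          (CH 0 (k + 1) J) := by
      intro J
      rw [CH_succ, CH_nc]
      rfl
    rw [show (fun J : ℕ → Fin N × Fin N => Φ (nc a J 0) (nc a J (k + 1 + 1))
        (CH 0 (k + 1 + 1) (nc a J))) = _ from funext h1]
    refine (ih (fun g b => (Φ a b).comp
      (AddMonoidHom.mulLeft (Es a * Em g - Em g * Es a)))).trans ?_
    rw [Finset.sum_comm]
    refine Finset.sum_congr rfl fun b _ => ?_
    simp only [AddMonoidHom.comp_apply, AddMonoidHom.coe_mulLeft]
    rw [← map_sum]
    rfl

/-- the traces of the products of elementary matrices -/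
theorem tr1 (a : Fin N × Fin N) : (Em a).trace = if a.1 = a.2 then 1 else 0 := by
  unfold Em
  by_cases h : a.1 = a.2
  · rw [if_pos h, h, Matrix.trace_single_eq_same]
  · rw [if_neg h, Matrix.trace_single_eq_of_ne _ _ _ h]

theorem tr2 (a : Fin N × Fin N) : (Es a).trace = if a.1 = a.2 then 1 else 0 := by
  unfold Es
  by_cases h : a.1 = a.2
  · rw [if_pos h, h, Matrix.trace_single_eq_same]
  · rw [if_neg h, Matrix.trace_single_eq_of_ne _ _ _ (Ne.symm h)]

theorem tr3 (a b : Fin N × Fin N) : (Em a * Es b).trace = if a = b then 1 else 0 := by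
  unfold Em Es
  rw [Matrix.trace_single_mul, Matrix.single_apply]
  by_cases h : a = b
  · rw [if_pos h, h]; simp
  · rw [if_neg h, if_neg]
    · simp
    · rintro ⟨h1, h2⟩
      exact h (Prod.ext h2.symm h1.symm)

theorem tr4 (a b : Fin N × Fin N) : (Es a * Em b).trace = if a = b then 1 else 0 := by
  rw [Matrix.trace_mul_comm, tr3]
  by_cases h : a = b
  · rw [if_pos h, if_pos h.symm]
  · rw [if_neg h, if_neg (Ne.symm h)]

theorem tr5 (a b : Fin N × Fin N) : (Em a * Em b).trace =
    if a.1 = b.2 ∧ a.2 = b.1 then 1 else 0 := by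
  unfold Em
  rw [Matrix.trace_single_mul, Matrix.single_apply]
  by_cases h : a.1 = b.2 ∧ a.2 = b.1
  · rw [if_pos h, if_pos ⟨h.2.symm, h.1.symm⟩]; simp
  · rw [if_neg h, if_neg (fun h' => h ⟨h'.2.symm, h'.1.symm⟩)]; simp

theorem tr6 (a b : Fin N × Fin N) : (Es a * Em b * Em a).trace =
    if a.1 = b.1 ∧ a.1 = b.2 then 1 else 0 := by
  unfold Em Es
  rw [mul_assoc, Matrix.trace_single_mul, Matrix.mul_apply]
  simp only [Matrix.single_apply]
  by_cases h : a.1 = b.1 ∧ a.1 = b.2
  · rw [if_pos h]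
    simp [h.1, ← h.2]
  · rw [if_neg h]
    rw [smul_eq_mul, one_mul]
    apply Finset.sum_eq_zero
    intro x _
    by_cases h1 : b.1 = a.1 ∧ b.2 = x
    · by_cases h2 : a.1 = x ∧ True
      · exact absurd ⟨h1.1.symm, h2.1.trans h1.2.symm⟩ h
      · rw [if_neg h2, mul_zero]
    · rw [if_neg h1, zero_mul]

theorem tr7 (a b : Fin N × Fin N) : (Em b * Es a * Em a).trace =
    if a.2 = b.1 ∧ a.2 = b.2 then 1 else 0 := by
  unfold Em Es
  rw [mul_assoc, Matrix.trace_single_mul, Matrix.mul_apply]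
  simp only [Matrix.single_apply]
  by_cases h : a.2 = b.1 ∧ a.2 = b.2
  · rw [if_pos h]
    simp [h.1, ← h.2]
  · rw [if_neg h]
    rw [smul_eq_mul, one_mul]
    apply Finset.sum_eq_zero
    intro x _
    by_cases h1 : a.2 = b.2 ∧ a.1 = x
    · by_cases h2 : a.1 = x ∧ a.2 = b.1
      · exact absurd ⟨h2.2, h1.1⟩ h
      · rw [if_neg h2, mul_zero]
    · rw [if_neg h1, zero_mul]

/-- the contraction -/
def CC (W : Fin N × Fin N → Fin N × Fin N → Matrix (Fin N) (Fin N) ℤ) : ℤ :=
  ∑ a, ∑ b, ((W a b).trace * (Em a * Es b).trace - (W a b * Em a).trace * (Es b).trace)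

theorem c1 : CC (fun a b : Fin N × Fin N => Es a * Em b) = 0 := by
  unfold CC
  simp only [tr4, tr3, tr6, tr2]
  simp [Fintype.sum_prod_type, ite_and, Prod.ext_iff]

theorem c2 : CC (fun a b : Fin N × Fin N => Em b * Es a) = 0 := by
  unfold CC
  simp only [tr4, tr3, tr7, tr2]
  simp [Fintype.sum_prod_type, ite_and, Prod.ext_iff]

theorem c3 : CC (fun a b : Fin N × Fin N => (Es a).trace • Em b) = 0 := by
  unfold CC
  simp only [smul_mul_assoc, Matrix.trace_smul, smul_eq_mul, tr5, tr3, tr1, tr2]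
  simp [Fintype.sum_prod_type, ite_and, Prod.ext_iff]

theorem c4 : CC (fun a b : Fin N × Fin N => (Em b).trace • Es a) = N - N ^ 3 := by
  unfold CC
  simp only [smul_mul_assoc, Matrix.trace_smul, smul_eq_mul, tr4, tr3, tr1, tr2]
  simp [Fintype.sum_prod_type, ite_and, Prod.ext_iff]
  ring

theorem c5 : CC (fun a b : Fin N × Fin N => (Es a * Em b).trace •
    (1 : Matrix (Fin N) (Fin N) ℤ)) = N ^ 3 - N := by
  unfold CC
  simp only [smul_mul_assoc, Matrix.trace_smul, smul_eq_mul, one_mul, Matrix.trace_one,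
    Fintype.card_fin, tr4, tr3, tr1, tr2]
  simp [Fintype.sum_prod_type, ite_and, Prod.ext_iff]
  ring

theorem c6 : CC (fun a b : Fin N × Fin N => ((Es a).trace * (Em b).trace) •
    (1 : Matrix (Fin N) (Fin N) ℤ)) = 0 := by
  unfold CC
  simp only [smul_mul_assoc, Matrix.trace_smul, smul_eq_mul, one_mul, Matrix.trace_one,
    Fintype.card_fin, tr4, tr3, tr1, tr2]
  simp [Fintype.sum_prod_type, ite_and, Prod.ext_iff]

theorem CC_val (hVVF : T_VVF) (k : ℕ) :
    CC (fun a b : Fin N × Fin N => VV N k (Es a) (Em b)) =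
      ((N : ℤ) ^ 3 - N) * ((if Odd k then 1 else 0) + (al k).eval (N : ℤ)) := by
  have h1 : CC (fun a b : Fin N × Fin N => VV N k (Es a) (Em b)) =
      (al (k + 1)).eval (N : ℤ) * CC (fun a b : Fin N × Fin N => Es a * Em b) -
      (if Even k then (1 : ℤ) else 0) * CC (fun a b : Fin N × Fin N => Em b * Es a) -
      (al k).eval (N : ℤ) * CC (fun a b : Fin N × Fin N => (Es a).trace • Em b) -
      (al k).eval (N : ℤ) * CC (fun a b : Fin N × Fin N => (Em b).trace • Es a) +
      (if Odd k then (1 : ℤ) else 0) * CC (fun a b : Fin N × Fin N => (Es a * Em b).trace •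
        (1 : Matrix (Fin N) (Fin N) ℤ)) +
      (if k = 0 then 0 else (al (k - 1)).eval (N : ℤ)) *
        CC (fun a b : Fin N × Fin N => ((Es a).trace * (Em b).trace) •
          (1 : Matrix (Fin N) (Fin N) ℤ)) := by
    unfold CC
    simp only [Finset.mul_sum, ← Finset.sum_sub_distrib, ← Finset.sum_add_distrib]
    refine Finset.sum_congr rfl fun a _ => Finset.sum_congr rfl fun b _ => ?_
    rw [hVVF]
    simp only [add_mul, sub_mul, smul_mul_assoc, one_mul, Matrix.trace_add, Matrix.trace_sub,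
      Matrix.trace_smul, smul_eq_mul, Matrix.trace_one]
    ring
  rw [h1, c1, c2, c3, c4, c5, c6]
  ring

end chains

/-- the conversion of the sums over the labels -/
theorem conv {N m : ℕ} (hm : 0 < m) (g0 : Fin N × Fin N) (P : List (Pl (ℕ × Bool)))
    (hP : ∀ a ∈ P, ∀ x ∈ a.fl, x.1 < m) (I : Fin m → Fin N × Fin N) :
    ((P.map (Pl.map fun x => ((⟨x.1 % m, Nat.mod_lt _ hm⟩ : Fin m), x.2))).map (plM (EE I))).prod =
      (P.map (plM (EE (ex g0 m I)))).prod := by
  rw [List.map_map]
  congr 1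
  apply List.map_congr_left
  intro a ha
  have h1 : ∀ x : ℕ × Bool, x.1 < m →
      EE I ((⟨x.1 % m, Nat.mod_lt _ hm⟩ : Fin m), x.2) = EE (ex g0 m I) x := by
    intro x hx
    have h2 : I ⟨x.1 % m, Nat.mod_lt _ hm⟩ = ex g0 m I x.1 := by
      unfold ex
      rw [dif_pos hx]
      congr 1
      exact Fin.ext (Nat.mod_eq_of_lt hx)
    unfold EE
    simp only [h2]
  cases a with
  | si a =>
    simp only [Function.comp, Pl.map, plM]
    exact h1 a (hP _ ha a (by simp [Pl.fl]))
  | pr a b =>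
    simp only [Function.comp, Pl.map, plM]
    rw [h1 a (hP _ ha a (by simp [Pl.fl])), h1 b (hP _ ha b (by simp [Pl.fl]))]

theorem chn_lt {a k m : ℕ} (h : a + k < m) : ∀ p ∈ chn a k, ∀ x ∈ p.fl, x.1 < m := by
  intro p hp x hx
  unfold chn at hp
  rw [List.mem_map] at hp
  obtain ⟨y, hy, rfl⟩ := hp
  rw [List.mem_range] at hy
  simp only [Pl.fl, List.mem_cons, List.not_mem_nil, or_false] at hx
  rcases hx with rfl | rfl
  · simp only; omega
  · simp only; omega

theorem trace_Sm {N : ℕ} (g0 : Fin N × Fin N) (m : ℕ)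
    (F : (ℕ → Fin N × Fin N) → Matrix (Fin N) (Fin N) ℤ) :
    (Sm g0 m F).trace = Sm g0 m (fun J => (F J).trace) := by
  unfold Sm
  rw [Matrix.trace_sum]

/-- the places of the first kind -/
theorem val1 {N : ℕ} (g0 : Fin N × Fin N) (i : ℕ) :
    Sm g0 (i + 1 + 1) (fun J => (Em (J 0) * CH 0 (i + 1) J * Es (J (0 + (i + 1)))).trace) =
      (N : ℤ) * ((N : ℤ) ^ 2 - 1) * (N : ℤ) ^ i := by
  have h2 := left_sum g0 (i + 1) 1 1 0 (fun J' : ℕ → Fin N × Fin N => Es (J' 0))
  have h3 := congrArg Matrix.trace h2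
  rw [trace_Sm, trace_Sm] at h3
  simp only [zero_mul, zero_smul, add_zero, one_smul] at h3
  rw [h3, Sm_one]
  simp only [nc, add_mul, smul_mul_assoc, one_mul, Matrix.trace_add, Matrix.trace_smul,
    smul_eq_mul, tr3, tr1, tr2, mul_one]
  rw [if_neg (Nat.succ_ne_zero i), Nat.add_sub_cancel]
  simp [Fintype.sum_prod_type, Finset.sum_add_distrib]
  ring

/-- the places of the second kind -/
theorem val2 (hVVF : T_VVF) {N : ℕ} (g0 : Fin N × Fin N) (q k : ℕ) :
    Sm g0 (q + (k + 3)) (fun J => (Em (J 0) * CH 0 q J * (CH 1 (k + 1) (fun x => J (x + q)) *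
      (Es (J (0 + q)) * Em (J (1 + q)) - Em (J (1 + q)) * Es (J (0 + q))) *
      Es (J (k + 2 + q)))).trace) =
      (N : ℤ) * (((N : ℤ) ^ 2 - 1) * ((N : ℤ) ^ q * ((if Odd k then 1 else 0) +
        (al k).eval (N : ℤ)))) := by
  have h2 := left_sum g0 q (k + 3) 1 0 (fun J => CH 1 (k + 1) J *
      (Es (J 0) * Em (J 1) - Em (J 1) * Es (J 0)) * Es (J (k + 2)))
  have h3 := congrArg Matrix.trace h2
  rw [trace_Sm, trace_Sm] at h3
  simp only [zero_mul, zero_smul, add_zero, one_smul] at h3
  rw [h3, Sm_succ, Sm_comm]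
  generalize (if q = 0 then (0 : ℤ) else -((N : ℤ) ^ (q - 1) * 1)) = β
  -- the sum over the first label
  have h4 : ∀ J : ℕ → Fin N × Fin N, ∑ g : Fin N × Fin N,
      ((((N : ℤ) ^ q * 1) • Em (nc g J 0) + (β * (Em (nc g J 0)).trace) • 1) *
        (CH 1 (k + 1) (nc g J) * (Es (nc g J 0) * Em (nc g J 1) - Em (nc g J 1) * Es (nc g J 0)) *
          Es (nc g J (k + 2)))).trace =
      (N : ℤ) ^ q * ((CH 0 (k + 1) J).trace * (Em (J 0) * Es (J (k + 1))).trace -
        (CH 0 (k + 1) J * Em (J 0)).trace * (Es (J (k + 1))).trace) := by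
    intro J
    simp only [CH_nc]
    have h5 : ∀ g : Fin N × Fin N,
        ((((N : ℤ) ^ q * 1) • Em (nc g J 0) + (β * (Em (nc g J 0)).trace) • 1) *
        (CH 0 (k + 1) J * (Es (nc g J 0) * Em (nc g J 1) - Em (nc g J 1) * Es (nc g J 0)) *
          Es (nc g J (k + 2)))) =
        ((N : ℤ) ^ q) • ((Em g * CH 0 (k + 1) J * Es g) * (Em (J 0) * Es (J (k + 1)))) -
        ((N : ℤ) ^ q) • ((Em g * (CH 0 (k + 1) J * Em (J 0)) * Es g) * Es (J (k + 1))) +
        β • (CH 0 (k + 1) J * (((Em g).trace • Es g) * Em (J 0)) * Es (J (k + 1))) -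
        β • (CH 0 (k + 1) J * (Em (J 0) * ((Em g).trace • Es g)) * Es (J (k + 1))) := by
      intro g
      change ((((N : ℤ) ^ q * 1) • Em g + (β * (Em g).trace) • 1) *
        (CH 0 (k + 1) J * (Es g * Em (J 0) - Em (J 0) * Es g) * Es (J (k + 1)))) = _
      simp only [add_mul, mul_sub, sub_mul, smul_mul_assoc, mul_smul_comm, one_mul, smul_smul,
        mul_assoc, mul_one]
      abel
    simp only [h5]
    rw [← Matrix.trace_sum, Finset.sum_sub_distrib, Finset.sum_add_distrib,
      Finset.sum_sub_distrib, ← Finset.smul_sum, ← Finset.smul_sum, ← Finset.smul_sum,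
      ← Finset.smul_sum, ← Finset.sum_mul, ← Finset.sum_mul, i1, i1, ← Finset.sum_mul,
      ← Finset.mul_sum, ← Finset.sum_mul, i2, ← Finset.sum_mul, ← Finset.mul_sum,
      ← Finset.mul_sum, i2, one_mul, mul_one]
    rw [add_sub_cancel_right]
    simp only [smul_mul_assoc, one_mul, Matrix.trace_sub, Matrix.trace_smul, smul_eq_mul]
    ring
  simp only [h4]
  -- the chain
  have h6 := chain_sum g0 k (fun a b =>
    { toFun := fun M : Matrix (Fin N) (Fin N) ℤ => (N : ℤ) ^ q * (M.trace * (Em a * Es b).trace -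
        (M * Em a).trace * (Es b).trace)
      map_zero' := by simp
      map_add' := by
        intro M M'
        rw [add_mul, Matrix.trace_add, Matrix.trace_add]
        ring })
  simp only [AddMonoidHom.coe_mk, ZeroHom.coe_mk] at h6
  rw [h6]
  have h7 := CC_val hVVF (N := N) k
  unfold CC at h7
  simp only [← Finset.mul_sum]
  rw [h7]
  ring

theorem pf_VAL (hVVF : Pool.Agent.H59.LIN.T_VVF) : Pool.Agent.H59.LIN.T_VAL := by
  intro b N
  have hm : 0 < mb b := by unfold mb; omega
  rcases Nat.eq_zero_or_pos N with hN | hN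
  · subst hN
    have : IsEmpty (Fin (mb b) → Fin 0 × Fin 0) := ⟨fun I => (I ⟨0, hm⟩).1.elim0⟩
    rw [Fintype.sum_empty]
    simp
  let g0 : Fin N × Fin N := (⟨0, hN⟩, ⟨0, hN⟩)
  obtain ⟨i, t⟩ := b
  rcases Nat.eq_zero_or_pos t with ht | ht
  · -- one chain
    subst ht
    have hmb : mb (i, 0) = i + 1 + 1 := by unfold mb; simp
    have hP : ∀ a ∈ PLn (i, 0), ∀ x ∈ a.fl, x.1 < mb (i, 0) := by
      intro a ha x hx
      rw [hmb]
      simp only [PLn, if_true] at ha
      rw [List.cons_append, List.mem_cons, List.mem_append, List.mem_singleton] at ha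
      rcases ha with rfl | ha | rfl
      · simp only [Pl.fl, List.mem_singleton] at hx
        subst hx; simp only; omega
      · exact chn_lt (by omega) a ha x hx
      · simp only [Pl.fl, List.mem_singleton] at hx
        subst hx; simp only; omega
    have h1 : ∀ I : Fin (mb (i, 0)) → Fin N × Fin N,
        (((PL (i, 0)).map (plM (EE I))).prod).trace =
        (Em (ex g0 (mb (i, 0)) I 0) * CH 0 (i + 1) (ex g0 (mb (i, 0)) I) *
          Es (ex g0 (mb (i, 0)) I (0 + (i + 1)))).trace := by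
      intro I
      unfold PL
      rw [conv hm g0 _ hP]
      simp only [PLn, if_true]
      rw [List.cons_append, List.map_cons, List.map_append, List.prod_cons, List.prod_append,
        List.map_singleton, List.prod_singleton, mul_assoc, zero_add]
      rfl
    rw [Finset.sum_congr rfl fun I _ => h1 I]
    have h2 := val1 g0 i
    rw [← hmb] at h2
    unfold Sm at h2
    rw [h2]
    simp only [hp, if_true]
    simp
    ring
  · -- two chains
    obtain ⟨k, hk⟩ : ∃ k, mb (i, t) = (i - 1) + (k + 3) := by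
      refine ⟨i + 2 * t + 2 - (i - 1) - 3, ?_⟩
      unfold mb
      simp only
      omega
    have hP : ∀ a ∈ PLn (i, t), ∀ x ∈ a.fl, x.1 < mb (i, t) := by
      intro a ha x hx
      simp only [PLn, if_neg ht.ne'] at ha
      rw [List.cons_append, List.cons_append, List.mem_cons, List.mem_append, List.mem_append,
        List.mem_cons, List.mem_singleton] at ha
      rcases ha with rfl | (ha | ha) | (rfl | rfl)
      · simp only [Pl.fl, List.mem_singleton] at hx
        subst hx; simp only; omega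
      · exact chn_lt (by omega) a ha x hx
      · exact chn_lt (by omega) a ha x hx
      · simp only [Pl.fl, List.mem_cons, List.not_mem_nil, or_false] at hx
        rcases hx with rfl | rfl <;> simp only <;> omega
      · simp only [Pl.fl, List.mem_singleton] at hx
        subst hx; simp only; omega
    have h1 : ∀ I : Fin (mb (i, t)) → Fin N × Fin N,
        (((PL (i, t)).map (plM (EE I))).prod).trace =
        (fun J : ℕ → Fin N × Fin N => (Em (J 0) * CH 0 (i - 1) J * (CH 1 (k + 1)
          (fun x => J (x + (i - 1))) * (Es (J (0 + (i - 1))) * Em (J (1 + (i - 1))) -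
            Em (J (1 + (i - 1))) * Es (J (0 + (i - 1)))) * Es (J (k + 2 + (i - 1))))).trace)
          (ex g0 (mb (i, t)) I) := by
      intro I
      unfold PL
      rw [conv hm g0 _ hP]
      simp only [PLn, if_neg ht.ne']
      rw [← CH_shift, show mb (i, t) - (i - 1) - 2 = k + 1 by omega,
        show mb (i, t) - 1 = k + 2 + (i - 1) by omega, zero_add, add_comm 1 (i - 1)]
      simp only [List.cons_append, List.map_cons, List.map_append, List.prod_cons,
        List.prod_append, List.map_nil, List.prod_nil, mul_one, mul_assoc]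
      rfl
    rw [Finset.sum_congr rfl fun I _ => h1 I]
    have h2 := val2 hVVF g0 (i - 1) k
    rw [← hk] at h2
    unfold Sm at h2
    rw [h2]
    simp only [hp, if_neg ht.ne']
    rw [show mb (i, t) - (i - 1) - 3 = k by omega]
    simp only [eval_mul, eval_sub, eval_pow, eval_X, eval_one, eval_add]
    split_ifs <;> simp

end Pool.Agent.H7.LIN
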